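import Pool.Agent.Y325.BG.Top
import Pool.Agent.Y325.BG.VN
import Pool.Agent.Y473.BG.R
import Pool.Agent.Y473.BG.FM
import Pool.Agent.Y473.BG.GL
import Pool.Agent.Y585.BG.Wick
import Pool.Agent.Y585.BG.Avg
import Pool.Agent.Y585.BG.Comm
import Pool.Agent.Y776.BG.Dom
import Pool.Agent.Y776.BG.Der

/-!
# The `b`-Gaussian von Neumann algebras over an infinite-dimensional Hilbert space

For infinite-dimensional `H_ℝ` all the algebras `Γ_b(H)`, `0 < b < 1`, coincide: each of them is the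
von Neumann algebra generated by the free and the classical Gaussian family together. The reason is
that for an orthonormal sequence `e_0, e_1, ...` the averages over `i` of
`Y_b(e_i) Y_b(e_0) Y_b(e_i)` converge in `L²` to `b^{3/2} G_1(e_0)`.

All definitions are in `Pool.Agent.Y325.BG.Defs`.
-/

set_option autoImplicit false

open Pool.Agent.Y325.BG

namespace Pool.Agent.Results.MP_2fec48_an.InfiniteDimensional

universe u v

/-- Let `E` (the real Hilbert space `H_ℝ`) be infinite-dimensional, and let `S` (the free Gaussian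
family) and `U f = exp (i G_1(f))` (the classical Gaussian family) be a realisation in a finite von
Neumann algebra `M` in standard form. Then for all `0 < b < 1` the von Neumann algebra `Γ_b`
generated by the operators `Y_b(f) = √(1-b) G_0(f) + √b G_1(f)` is one and the same von Neumann
algebra `N`, namely the one generated by both families. -/
theorem result {𝓗 : Type v} [NormedAddCommGroup 𝓗] [InnerProductSpace ℂ 𝓗] [CompleteSpace 𝓗]
    {E : Type u} [NormedAddCommGroup E] [InnerProductSpace ℝ E] (hE : ¬ FiniteDimensional ℝ E)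
    {M : VonNeumannAlgebra 𝓗} {Ω : 𝓗} {S U : E → 𝓗 →L[ℂ] 𝓗} (h : Realisation M Ω S U) :
    ∃ N : VonNeumannAlgebra 𝓗,
      (N : Set (𝓗 →L[ℂ] 𝓗)) = Set.centralizer (Set.centralizer (Set.range S ∪ Set.range U)) ∧
      ∀ b : ℝ, 0 < b → b < 1 → Gam S U b = (N : Set (𝓗 →L[ℂ] 𝓗)) := by
  have hT : ∀ x ∈ Set.range S ∪ Set.range U, star x ∈ Set.range S ∪ Set.range U := by
    rintro x (⟨f, rfl⟩ | ⟨f, rfl⟩)
    · exact Or.inl ⟨f, (h.S_sa f).star_eq.symm⟩
    · exact Or.inr ⟨-f, (h.U_star f).symm⟩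
  obtain ⟨N, hN⟩ := exists_vN hT
  refine ⟨N, hN, fun b hb hb1 => ?_⟩
  rw [hN, Gam, comY_eq Pool.Agent.Y473.BG.R.t Pool.Agent.Y776.BG.Dom.t Pool.Agent.Y776.BG.Der.t1
    Pool.Agent.Y776.BG.Der.t2
    (Pool.Agent.Y473.BG.GL.t Pool.Agent.Y776.BG.Dom.t Pool.Agent.Y776.BG.Der.t1
      Pool.Agent.Y776.BG.Der.t2)
    (Pool.Agent.Y473.BG.FM.t1 Pool.Agent.Y473.BG.FM.t)
    (Pool.Agent.Y473.BG.FM.t2 Pool.Agent.Y473.BG.FM.t) Pool.Agent.Y585.BG.Wick.t
    Pool.Agent.Y585.BG.Avg.t1 Pool.Agent.Y585.BG.Avg.t2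
    (Pool.Agent.Y585.BG.Comm.t Pool.Agent.Y473.BG.R.t Pool.Agent.Y776.BG.Der.t1) hE h hb hb1]

end Pool.Agent.Results.MP_2fec48_an.InfiniteDimensional
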